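import Pool.Agent.L7h41.EA.P3

set_option autoImplicit false

open Finset Polynomial Pool.Agent.L7h19.EA

namespace Pool.Agent.L7h41.EA

/-- the two local facts for `p ∤ A`, `B = p ^ k m`, and for the curve `(A', C')` with `C' = a² - 4 b`.. -/
theorem core1 (h1 : S_N1) {p : ℕ} [Fact p.Prime] (hp : p ≠ 2) {A m : ℤ} {k : ℕ} (hk : 1 ≤ k)
    (hA : ¬ (p : ℤ) ∣ A) (hm : ¬ (p : ℤ) ∣ m) (s : Bool) :
    L1 p A ((p : ℤ) ^ k * m) (decide (Odd k) || Pool.Agent.L7h19.EA.sq p A) false s := by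
  have hp0 : (p : ℤ) ≠ 0 := by exact_mod_cast (Fact.out : p.Prime).ne_zero
  have hm0 : m ≠ 0 := fun h => hm (h ▸ dvd_zero _)
  have := h1 p A ((p : ℤ) ^ k * m) s hp (mul_ne_zero (pow_ne_zero k hp0) hm0) hA
    ((dvd_pow_self _ (by omega)).mul_right _)
  rwa [val_pow_mul k hm] at this

theorem core2 (h2 : S_N2) {p : ℕ} [Fact p.Prime] (hp : p ≠ 2) {A B m : ℤ} {k : ℕ} (hk : 1 ≤ k)
    (hA : ¬ (p : ℤ) ∣ A) (hB : ¬ (p : ℤ) ∣ B) (hm : ¬ (p : ℤ) ∣ m)
    (hC : A ^ 2 - 4 * B = (p : ℤ) ^ k * m) (s : Bool) :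
    L1 p A B false (decide (Odd k) || Pool.Agent.L7h19.EA.sq p (-2 * A)) s := by
  have hp0 : (p : ℤ) ≠ 0 := by exact_mod_cast (Fact.out : p.Prime).ne_zero
  have hm0 : m ≠ 0 := fun h => hm (h ▸ dvd_zero _)
  have := h2 p A B s hp (by rw [hC]; exact mul_ne_zero (pow_ne_zero k hp0) hm0) hA hB
    (by rw [hC]; exact (dvd_pow_self _ (by omega)).mul_right _)
  rwa [hC, val_pow_mul k hm] at this

theorem s_P1 (h1 : S_N1) (h2 : S_N2) : S_P1 := by
  intro a b f hS ha hb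
  obtain ⟨h0, hf, hd⟩ := hS
  have hb0 : b ≠ 0 := fun h => h0 (by rw [h]; ring)
  obtain ⟨k, b', hbk, hnd, hk⟩ := f_split hf hb0
  have hk1 : 1 ≤ k := hk 1 (by simpa using hb)
  obtain ⟨B1, hB1⟩ := Pool.Agent.L7h19.RP.large_nd hf hd ha
  obtain ⟨B2, hB2⟩ := Pool.Agent.L7h19.RP.large_nd hf hd hnd
  refine ⟨if Odd k then some true else none, some false, a, 1, fun _ _ => false, B1 + B2 + 2, ha,
    f_nd_one hf, fun _ _ _ _ => rfl, ?_⟩
  intro p hp t hz e1 e2 hne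
  have hp2 : p ≠ 2 := by omega
  have n1 := hB1 p (by omega) t e1
  have n2 := hB2 p (by omega) t e1
  obtain ⟨q1, q2⟩ := quot e1 e2
  set φ : ℤ := f.eval t / p with hφ
  have hbt : b.eval t = (p : ℤ) ^ k * (φ ^ k * b'.eval t) := by
    rw [hbk, eval_mul, eval_pow, q1]
    ring
  have hm : ¬ (p : ℤ) ∣ φ ^ k * b'.eval t := nd_mul (nd_pow q2 k) n2
  have hrl : rl (if Odd k then some true else none) p (a.eval t) =
      (decide (Odd k) || Pool.Agent.L7h19.EA.sq p (a.eval t)) := by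
    unfold rl
    by_cases ho : Odd k <;> simp [ho]
  have hpb : (p : ℤ) ∣ b.eval t := by
    rw [hbt]
    exact (dvd_pow_self _ (by omega)).mul_right _
  have hnc : ¬ (p : ℤ) ∣ a.eval t ^ 2 - 4 * b.eval t := by
    intro h
    have h3 : (p : ℤ) ∣ a.eval t ^ 2 := by
      have := dvd_add h (hpb.mul_left 4)
      rwa [sub_add_cancel] at this
    exact n1 (prime_int.dvd_of_dvd_pow h3)
  rw [hrl]
  refine ⟨?_, ?_⟩
  · rw [hbt]
    exact core1 h1 hp2 hk1 n1 hm _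
  · have := core2 h2 hp2 (A := -2 * a.eval t) (B := a.eval t ^ 2 - 4 * b.eval t) (k := k)
      (m := 16 * (φ ^ k * b'.eval t)) hk1 (nd_mul (by rw [dvd_neg]; exact nd_two hp2) n1) hnc
      (nd_mul (nd_sixteen hp2) hm) (by rw [dual_c, hbt]; ring)
      (xor (xor false (!Pool.Agent.L7h19.EA.sq p φ)) (nm p))
    have e4 : Pool.Agent.L7h19.EA.sq p (-2 * (-2 * a.eval t)) =
        Pool.Agent.L7h19.EA.sq p (a.eval t) := by
      rw [show -2 * (-2 * a.eval t) = 2 ^ 2 * a.eval t by ring]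
      exact sq_sq_mul _ (nd_two hp2)
    rw [e4] at this
    exact this

theorem s_P2 (h1 : S_N1) (h2 : S_N2) : S_P2 := by
  intro a b f hS ha hb hc
  obtain ⟨h0, hf, hd⟩ := hS
  have hc0 : a ^ 2 - 4 * b ≠ 0 := fun h => h0 (by rw [h]; ring)
  obtain ⟨k, c', hck, hnd, hk⟩ := f_split hf hc0
  have hk1 : 1 ≤ k := hk 1 (by simpa using hc)
  have hna : ¬ f ∣ C (-2) * a := f_nd_C_mul hf hd (by norm_num) ha
  obtain ⟨B1, hB1⟩ := Pool.Agent.L7h19.RP.large_nd hf hd ha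
  obtain ⟨B2, hB2⟩ := Pool.Agent.L7h19.RP.large_nd hf hd hnd
  obtain ⟨B3, hB3⟩ := Pool.Agent.L7h19.RP.large_nd hf hd hb
  refine ⟨some false, if Odd k then some true else none, 1, C (-2) * a, fun _ _ => false,
    B1 + B2 + B3 + 2, f_nd_one hf, hna, fun _ _ _ _ => rfl, ?_⟩
  intro p hp t hz e1 e2 hne
  have hp2 : p ≠ 2 := by omega
  have n1 := hB1 p (by omega) t e1
  have n2 := hB2 p (by omega) t e1
  have n3 := hB3 p (by omega) t e1
  obtain ⟨q1, q2⟩ := quot e1 e2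
  set φ : ℤ := f.eval t / p with hφ
  have hct : a.eval t ^ 2 - 4 * b.eval t = (p : ℤ) ^ k * (φ ^ k * c'.eval t) := by
    rw [← eval_c, hck, eval_mul, eval_pow, q1]
    ring
  have hm : ¬ (p : ℤ) ∣ φ ^ k * c'.eval t := nd_mul (nd_pow q2 k) n2
  have hev : (C (-2) * a).eval t = -2 * a.eval t := by simp
  have hrl : rl (if Odd k then some true else none) p ((C (-2) * a).eval t) =
      (decide (Odd k) || Pool.Agent.L7h19.EA.sq p (-2 * a.eval t)) := by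
    unfold rl
    rw [hev]
    by_cases ho : Odd k <;> simp [ho]
  rw [hrl]
  refine ⟨core2 h2 hp2 hk1 n1 n3 hm hct _, ?_⟩
  have := core1 h1 hp2 (A := -2 * a.eval t) (m := φ ^ k * c'.eval t) (k := k) hk1
    (nd_mul (by rw [dvd_neg]; exact nd_two hp2) n1) hm
    (xor (xor false (!Pool.Agent.L7h19.EA.sq p φ)) (nm p))
  rw [← hct] at this
  exact this

end Pool.Agent.L7h41.EA
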