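import Pool.Agent.L7h41.EA.Base

set_option autoImplicit false

open Finset Polynomial Pool.Agent.L7h19.EA

namespace Pool.Agent.L7h41.EA

theorem eval_c (a b : ℤ[X]) (t : ℤ) :
    (a ^ 2 - 4 * b).eval t = a.eval t ^ 2 - 4 * b.eval t := by
  simp [eval_sub, eval_mul, eval_pow]

theorem split_ne {a b : ℤ[X]} {t : ℤ} (h : (b * (a ^ 2 - 4 * b)).eval t ≠ 0) :
    b.eval t ≠ 0 ∧ a.eval t ^ 2 - 4 * b.eval t ≠ 0 := by
  rw [eval_mul, eval_c] at h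
  exact mul_ne_zero_iff.mp h

theorem dual_c (a b : ℤ) : (-2 * a) ^ 2 - 4 * (a ^ 2 - 4 * b) = 16 * b := by ring

theorem s_P3 (h3 : S_N3) : S_P3 := by
  intro a b f hS hb hc
  obtain ⟨h0, hf, hd⟩ := hS
  obtain ⟨B1, hB1⟩ := Pool.Agent.L7h19.RP.large_nd hf hd hb
  obtain ⟨B2, hB2⟩ := Pool.Agent.L7h19.RP.large_nd hf hd hc
  refine ⟨some false, some false, 1, 1, fun _ _ => false, B1 + B2 + 2, f_nd_one hf, f_nd_one hf,
    fun _ _ _ _ => rfl, ?_⟩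
  intro p hp t hz h1 h2 hne
  have hp2 : p ≠ 2 := by omega
  have e1 := hB1 p (by omega) t h1
  have e2 := hB2 p (by omega) t h1
  rw [eval_c] at e2
  refine ⟨h3 p _ _ _ hp2 e1 e2, h3 p _ _ _ hp2 e2 ?_⟩
  rw [dual_c]
  exact nd_mul (nd_sixteen hp2) e1

end Pool.Agent.L7h41.EA
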