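import Pool.Agent.L7h41.EA.P3

set_option autoImplicit false

open Finset Polynomial Pool.Agent.L7h19.EA

namespace Pool.Agent.L7h41.EA

/-- an even power of a unit does not change the symbol -/
theorem sq_even {p : ℕ} [Fact p.Prime] {m : ℤ} (n : ℤ) {j : ℕ} (hj : Even j) (hm : ¬ (p : ℤ) ∣ m) :
    Pool.Agent.L7h19.EA.sq p (m ^ j * n) = Pool.Agent.L7h19.EA.sq p n := by
  obtain ⟨i, rfl⟩ := hj
  rw [show m ^ (i + i) = (m ^ i) ^ 2 by ring]
  exact sq_sq_mul n (nd_pow hm i)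

/-- the curve of case `N4` -/
theorem core4 (h4 : S_N4) {p : ℕ} [Fact p.Prime] (hp : p ≠ 2) {φ A B : ℤ} {k : ℕ} (hk : 3 ≤ k)
    (hφ : ¬ (p : ℤ) ∣ φ) (hA : ¬ (p : ℤ) ∣ A) (hB : ¬ (p : ℤ) ∣ B) :
    L1 p (p * (φ * A)) ((p : ℤ) ^ k * (φ ^ k * B)) true
      (if Odd k then Pool.Agent.L7h19.EA.sq p (-A * B) else Pool.Agent.L7h19.EA.sq p B) (!Pool.Agent.L7h19.EA.sq p (-(φ * A))) := by
  have hp0 : (p : ℤ) ≠ 0 := by exact_mod_cast (Fact.out : p.Prime).ne_zero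
  have hB0 : φ ^ k * B ≠ 0 := fun h => nd_mul (nd_pow hφ k) hB (h ▸ dvd_zero _)
  have hm : ¬ (p : ℤ) ∣ φ ^ k * B := nd_mul (nd_pow hφ k) hB
  have hnA : ¬ (p : ℤ) ∣ φ * A := nd_mul hφ hA
  have := h4 p (p * (φ * A)) ((p : ℤ) ^ k * (φ ^ k * B)) hp (mul_ne_zero (pow_ne_zero k hp0) hB0)
    (dvd_mul_right _ _) (by
      rw [pow_two]
      intro h
      exact hnA ((mul_dvd_mul_iff_left hp0).mp h))
    ((pow_dvd_pow _ hk).mul_right _)
  rw [val_pow_mul k hm, up_pow_mul k hm, div_self_mul] at this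
  have e : (if Odd k then Pool.Agent.L7h19.EA.sq p (-(φ * A) * (φ ^ k * B)) else Pool.Agent.L7h19.EA.sq p (φ ^ k * B)) =
      (if Odd k then Pool.Agent.L7h19.EA.sq p (-A * B) else Pool.Agent.L7h19.EA.sq p B) := by
    by_cases ho : Odd k
    · rw [if_pos ho, if_pos ho, show -(φ * A) * (φ ^ k * B) = φ ^ (k + 1) * (-A * B) by ring]
      exact sq_even _ (Odd.add_one ho) hφ
    · rw [if_neg ho, if_neg ho]
      exact sq_even _ (Nat.not_odd_iff_even.mp ho) hφ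
  rwa [e] at this

/-- the curve of case `N5` -/
theorem core5 (h5 : S_N5) {p : ℕ} [Fact p.Prime] (hp : p ≠ 2) {φ A B D : ℤ} {k : ℕ} (hk : 3 ≤ k)
    (hφ : ¬ (p : ℤ) ∣ φ) (hA : ¬ (p : ℤ) ∣ A) (hD : ¬ (p : ℤ) ∣ D) (hB : (p : ℤ) ^ 2 ∣ B)
    (hC : (p * (φ * A)) ^ 2 - 4 * B = (p : ℤ) ^ k * (φ ^ k * D)) :
    L1 p (p * (φ * A)) B (if Odd k then Pool.Agent.L7h19.EA.sq p (2 * A * D) else Pool.Agent.L7h19.EA.sq p D) true
      (!Pool.Agent.L7h19.EA.sq p (-2 * (φ * A))) := by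
  have hp0 : (p : ℤ) ≠ 0 := by exact_mod_cast (Fact.out : p.Prime).ne_zero
  have hD0 : φ ^ k * D ≠ 0 := fun h => nd_mul (nd_pow hφ k) hD (h ▸ dvd_zero _)
  have hm : ¬ (p : ℤ) ∣ φ ^ k * D := nd_mul (nd_pow hφ k) hD
  have hnA : ¬ (p : ℤ) ∣ φ * A := nd_mul hφ hA
  have := h5 p (p * (φ * A)) B hp (by rw [hC]; exact mul_ne_zero (pow_ne_zero k hp0) hD0)
    (dvd_mul_right _ _) (by
      rw [pow_two]
      intro h
      exact hnA ((mul_dvd_mul_iff_left hp0).mp h))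
    hB (by rw [hC]; exact (pow_dvd_pow _ hk).mul_right _)
  rw [hC, val_pow_mul k hm, up_pow_mul k hm, div_self_mul] at this
  have e : (if Odd k then Pool.Agent.L7h19.EA.sq p (2 * (φ * A) * (φ ^ k * D)) else Pool.Agent.L7h19.EA.sq p (φ ^ k * D)) =
      (if Odd k then Pool.Agent.L7h19.EA.sq p (2 * A * D) else Pool.Agent.L7h19.EA.sq p D) := by
    by_cases ho : Odd k
    · rw [if_pos ho, if_pos ho, show 2 * (φ * A) * (φ ^ k * D) = φ ^ (k + 1) * (2 * A * D) by ring]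
      exact sq_even _ (Odd.add_one ho) hφ
    · rw [if_neg ho, if_neg ho]
      exact sq_even _ (Nat.not_odd_iff_even.mp ho) hφ
  rwa [e] at this

/-- the sign without the factor `φ` -/
theorem sign_eq {p : ℕ} [Fact p.Prime] {φ A : ℤ} (hφ : ¬ (p : ℤ) ∣ φ) (hA : ¬ (p : ℤ) ∣ A) :
    (!Pool.Agent.L7h19.EA.sq p (φ * A)) = xor (!Pool.Agent.L7h19.EA.sq p A) (!Pool.Agent.L7h19.EA.sq p φ) := by
  rw [sq_mul hφ hA]
  cases Pool.Agent.L7h19.EA.sq p φ <;> cases Pool.Agent.L7h19.EA.sq p A <;> rfl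

theorem not_xor_nm (x y : Bool) : xor (!xor x y) y = !x := by cases x <;> cases y <;> rfl

theorem s_P4 (h4 : S_N4) (h5 : S_N5) : S_P4 := by
  intro a b f hS ha ha2 hb
  obtain ⟨h0, hf, hd⟩ := hS
  have hb0 : b ≠ 0 := fun h => h0 (by rw [h]; ring)
  obtain ⟨k, b', hbk, hnd, hk⟩ := f_split hf hb0
  have hk3 : 3 ≤ k := hk 3 hb
  obtain ⟨a', rfl⟩ := ha
  have hna : ¬ f ∣ a' := fun h => ha2 (by rw [pow_two]; exact mul_dvd_mul_left f h)
  have hnK : ¬ f ∣ C (-1) * (a' * b') := f_nd_C_mul hf hd (by norm_num) (f_nd_mul hf hna hnd)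
  obtain ⟨B1, hB1⟩ := Pool.Agent.L7h19.RP.large_nd hf hd hna
  obtain ⟨B2, hB2⟩ := Pool.Agent.L7h19.RP.large_nd hf hd hnd
  refine ⟨some true, none, 1, if Odd k then C (-1) * (a' * b') else b',
    fun p t => !Pool.Agent.L7h19.EA.sq p (-(a'.eval t)), B1 + B2 + 2, f_nd_one hf, ?_, ?_, ?_⟩
  · by_cases ho : Odd k
    · rwa [if_pos ho]
    · rwa [if_neg ho]
  · intro p t t' h
    show (!Pool.Agent.L7h19.EA.sq p (-(a'.eval t))) = !Pool.Agent.L7h19.EA.sq p (-(a'.eval t'))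
    rw [sq_congr ((eval_modEq (K := a') h).neg)]
  intro p hp t hz e1 e2 hne
  have hp2 : p ≠ 2 := by omega
  have n1 := hB1 p (by omega) t e1
  have n2 := hB2 p (by omega) t e1
  obtain ⟨q1, q2⟩ := quot e1 e2
  set φ : ℤ := f.eval t / p with hφ
  have hat : (f * a').eval t = p * (φ * a'.eval t) := by
    rw [eval_mul, q1]
    ring
  have hbt : b.eval t = (p : ℤ) ^ k * (φ ^ k * b'.eval t) := by
    rw [hbk, eval_mul, eval_pow, q1]
    ring
  have n1' : ¬ (p : ℤ) ∣ -a'.eval t := by rwa [dvd_neg]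
  have hrl : rl none p ((if Odd k then C (-1) * (a' * b') else b').eval t) =
      (if Odd k then Pool.Agent.L7h19.EA.sq p (-a'.eval t * b'.eval t) else Pool.Agent.L7h19.EA.sq p (b'.eval t)) := by
    unfold rl
    by_cases ho : Odd k
    · simp only [if_pos ho, Option.getD_none]
      congr 1
      rw [eval_mul, eval_mul, eval_C]
      ring
    · simp only [if_neg ho, Option.getD_none]
  rw [hrl]
  have hs : xor (!Pool.Agent.L7h19.EA.sq p (-(a'.eval t))) (!Pool.Agent.L7h19.EA.sq p φ) = !Pool.Agent.L7h19.EA.sq p (-(φ * a'.eval t)) := by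
    rw [show -(φ * a'.eval t) = φ * (-a'.eval t) by ring]
    exact (sign_eq q2 n1').symm
  show Loc p _ _ true _ (xor (!Pool.Agent.L7h19.EA.sq p (-(a'.eval t))) (!Pool.Agent.L7h19.EA.sq p φ))
  rw [hs]
  refine ⟨?_, ?_⟩
  · rw [hat, hbt]
    exact core4 h4 hp2 hk3 q2 n1 n2
  · have n3 : ¬ (p : ℤ) ∣ -2 * a'.eval t := nd_mul (by rw [dvd_neg]; exact nd_two hp2) n1
    have hb2 : (p : ℤ) ^ 2 ∣ (f * a').eval t ^ 2 - 4 * b.eval t := by
      rw [hat, hbt]
      refine dvd_sub ?_ (((pow_dvd_pow _ (by omega)).mul_right _).mul_left _)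
      rw [mul_pow]
      exact dvd_mul_right _ _
    have := core5 h5 hp2 (φ := φ) (A := -2 * a'.eval t) (B := (f * a').eval t ^ 2 - 4 * b.eval t)
      (D := 16 * b'.eval t) hk3 q2 n3 (nd_mul (nd_sixteen hp2) n2) hb2 (by
        rw [hat, hbt]
        ring)
    have e3 : (p : ℤ) * (φ * (-2 * a'.eval t)) = -2 * (f * a').eval t := by
      rw [hat]
      ring
    rw [e3] at this
    have e4 : (if Odd k then Pool.Agent.L7h19.EA.sq p (2 * (-2 * a'.eval t) * (16 * b'.eval t))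
        else Pool.Agent.L7h19.EA.sq p (16 * b'.eval t)) =
        (if Odd k then Pool.Agent.L7h19.EA.sq p (-a'.eval t * b'.eval t) else Pool.Agent.L7h19.EA.sq p (b'.eval t)) := by
      by_cases ho : Odd k
      · rw [if_pos ho, if_pos ho,
          show 2 * (-2 * a'.eval t) * (16 * b'.eval t) = 8 ^ 2 * (-a'.eval t * b'.eval t) by ring]
        refine sq_sq_mul _ ?_
        have := nd_pow (nd_two hp2) 3
        norm_num at this
        exact this
      · rw [if_neg ho, if_neg ho, show 16 * b'.eval t = 4 ^ 2 * b'.eval t by ring]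
        exact sq_sq_mul _ (nd_four hp2)
    rw [e4] at this
    have e5 : (!Pool.Agent.L7h19.EA.sq p (-2 * (φ * (-2 * a'.eval t)))) =
        xor (!Pool.Agent.L7h19.EA.sq p (-(φ * a'.eval t))) (nm p) := by
      rw [show -2 * (φ * (-2 * a'.eval t)) = 2 ^ 2 * (φ * a'.eval t) by ring,
        sq_sq_mul _ (nd_two hp2), sq_neg hp2 (nd_mul q2 n1), not_xor_nm]
    rw [e5] at this
    exact this

theorem s_P5 (h4 : S_N4) (h5 : S_N5) : S_P5 := by
  intro a b f hS ha ha2 hb hc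
  obtain ⟨h0, hf, hd⟩ := hS
  have hc0 : a ^ 2 - 4 * b ≠ 0 := fun h => h0 (by rw [h]; ring)
  obtain ⟨k, c', hck, hnd, hk⟩ := f_split hf hc0
  have hk3 : 3 ≤ k := hk 3 hc
  obtain ⟨a', rfl⟩ := ha
  obtain ⟨b', rfl⟩ := hb
  have hna : ¬ f ∣ a' := fun h => ha2 (by rw [pow_two]; exact mul_dvd_mul_left f h)
  have hnK : ¬ f ∣ C 2 * (a' * c') := f_nd_C_mul hf hd (by norm_num) (f_nd_mul hf hna hnd)
  obtain ⟨B1, hB1⟩ := Pool.Agent.L7h19.RP.large_nd hf hd hna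
  obtain ⟨B2, hB2⟩ := Pool.Agent.L7h19.RP.large_nd hf hd hnd
  refine ⟨none, some true, if Odd k then C 2 * (a' * c') else c', 1,
    fun p t => !Pool.Agent.L7h19.EA.sq p (-2 * (a'.eval t)), B1 + B2 + 2, ?_, f_nd_one hf, ?_, ?_⟩
  · by_cases ho : Odd k
    · rwa [if_pos ho]
    · rwa [if_neg ho]
  · intro p t t' h
    show (!Pool.Agent.L7h19.EA.sq p (-2 * (a'.eval t))) = !Pool.Agent.L7h19.EA.sq p (-2 * (a'.eval t'))
    rw [sq_congr ((eval_modEq (K := a') h).mul_left (-2))]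
  intro p hp t hz e1 e2 hne
  have hp2 : p ≠ 2 := by omega
  have n1 := hB1 p (by omega) t e1
  have n2 := hB2 p (by omega) t e1
  obtain ⟨q1, q2⟩ := quot e1 e2
  set φ : ℤ := f.eval t / p with hφ
  have hat : (f * a').eval t = p * (φ * a'.eval t) := by
    rw [eval_mul, q1]
    ring
  have hbt : (f ^ 2 * b').eval t = (p : ℤ) ^ 2 * (φ ^ 2 * b'.eval t) := by
    rw [eval_mul, eval_pow, q1]
    ring
  have hct : (f * a').eval t ^ 2 - 4 * (f ^ 2 * b').eval t =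
      (p : ℤ) ^ k * (φ ^ k * c'.eval t) := by
    rw [← eval_c, hck, eval_mul, eval_pow, q1]
    ring
  have hrl : rl none p ((if Odd k then C 2 * (a' * c') else c').eval t) =
      (if Odd k then Pool.Agent.L7h19.EA.sq p (2 * a'.eval t * c'.eval t) else Pool.Agent.L7h19.EA.sq p (c'.eval t)) := by
    unfold rl
    by_cases ho : Odd k
    · simp only [if_pos ho, Option.getD_none]
      congr 1
      rw [eval_mul, eval_mul, eval_C]
      ring
    · simp only [if_neg ho, Option.getD_none]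
  rw [hrl]
  have n3 : ¬ (p : ℤ) ∣ -2 * a'.eval t := nd_mul (by rw [dvd_neg]; exact nd_two hp2) n1
  have hs : xor (!Pool.Agent.L7h19.EA.sq p (-2 * (a'.eval t))) (!Pool.Agent.L7h19.EA.sq p φ) = !Pool.Agent.L7h19.EA.sq p (-2 * (φ * a'.eval t)) := by
    rw [show -2 * (φ * a'.eval t) = φ * (-2 * a'.eval t) by ring]
    exact (sign_eq q2 n3).symm
  show Loc p _ _ _ true (xor (!Pool.Agent.L7h19.EA.sq p (-2 * (a'.eval t))) (!Pool.Agent.L7h19.EA.sq p φ))
  rw [hs]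
  refine ⟨?_, ?_⟩
  · have := core5 h5 hp2 (φ := φ) (A := a'.eval t) (B := (f ^ 2 * b').eval t)
      (D := c'.eval t) hk3 q2 n1 n2 (by rw [hbt]; exact dvd_mul_right _ _) (by rw [← hat]; exact hct)
    rw [← hat] at this
    exact this
  · have := core4 h4 hp2 (φ := φ) (A := -2 * a'.eval t) (B := c'.eval t) hk3 q2 n3 n2
    have e3 : (p : ℤ) * (φ * (-2 * a'.eval t)) = -2 * (f * a').eval t := by
      rw [hat]
      ring
    rw [e3, ← hct] at this
    have e4 : (if Odd k then Pool.Agent.L7h19.EA.sq p (-(-2 * a'.eval t) * c'.eval t) else Pool.Agent.L7h19.EA.sq p (c'.eval t)) =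
        (if Odd k then Pool.Agent.L7h19.EA.sq p (2 * a'.eval t * c'.eval t) else Pool.Agent.L7h19.EA.sq p (c'.eval t)) := by
      rw [show -(-2 * a'.eval t) * c'.eval t = 2 * a'.eval t * c'.eval t by ring]
    rw [e4] at this
    have n4 : ¬ (p : ℤ) ∣ 2 * (φ * a'.eval t) := nd_mul (nd_two hp2) (nd_mul q2 n1)
    have e5 : (!Pool.Agent.L7h19.EA.sq p (-(φ * (-2 * a'.eval t)))) =
        xor (!Pool.Agent.L7h19.EA.sq p (-2 * (φ * a'.eval t))) (nm p) := by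
      rw [show -(φ * (-2 * a'.eval t)) = 2 * (φ * a'.eval t) by ring,
        show -2 * (φ * a'.eval t) = -(2 * (φ * a'.eval t)) by ring, sq_neg hp2 n4, not_xor_nm]
    rw [e5] at this
    exact this

end Pool.Agent.L7h41.EA
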