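import Pool.Agent.L7h19.EA.Stm2
import Pool.Agent.L7h19.RP.Bez

set_option autoImplicit false

open Finset Polynomial Pool.Agent.L7h19.EA

namespace Pool.Agent.L7h41.EA

/-! ### the symbol `sq` -/

theorem jac_pm {p : ℕ} [Fact p.Prime] {n : ℤ} (hn : ¬ (p : ℤ) ∣ n) :
    jacobiSym n p = 1 ∨ jacobiSym n p = -1 := by
  apply jacobiSym.eq_one_or_neg_one
  have hp : p.Prime := Fact.out
  rw [Int.gcd_comm]
  have h1 : IsCoprime (p : ℤ) n := (Nat.prime_iff_prime_int.mp hp).coprime_iff_not_dvd.mpr hn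
  exact Int.isCoprime_iff_gcd_eq_one.mp h1

theorem sq_mul {p : ℕ} [Fact p.Prime] {m n : ℤ} (hm : ¬ (p : ℤ) ∣ m) (hn : ¬ (p : ℤ) ∣ n) :
    sq p (m * n) = !(xor (sq p m) (sq p n)) := by
  unfold Pool.Agent.L7h19.EA.sq
  rw [jacobiSym.mul_left]
  rcases jac_pm hm with h1 | h1 <;> rcases jac_pm hn with h2 | h2 <;> rw [h1, h2] <;> decide

theorem sq_sq_mul {p : ℕ} [Fact p.Prime] {m : ℤ} (n : ℤ) (hm : ¬ (p : ℤ) ∣ m) :
    sq p (m ^ 2 * n) = sq p n := by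
  unfold Pool.Agent.L7h19.EA.sq
  rw [jacobiSym.mul_left, jacobiSym.pow_left]
  rcases jac_pm hm with h1 | h1 <;> rw [h1] <;> simp

theorem sq_congr {p : ℕ} {m n : ℤ} (h : m ≡ n [ZMOD p]) : sq p m = sq p n := by
  unfold Pool.Agent.L7h19.EA.sq
  rw [jacobiSym.mod_left m, jacobiSym.mod_left n, h]

theorem sq_neg_one {p : ℕ} [Fact p.Prime] (hp : p ≠ 2) : sq p (-1) = !nm p := by
  have hpr : p.Prime := Fact.out
  have hodd : Odd p := hpr.odd_of_ne_two hp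
  unfold Pool.Agent.L7h19.EA.sq nm
  rw [jacobiSym.at_neg_one hodd]
  have h2 : p % 4 = 1 ∨ p % 4 = 3 := by
    have := Nat.odd_iff.mp hodd
    omega
  rcases h2 with h | h
  · rw [ZMod.χ₄_nat_one_mod_four h]
    simp [h]
  · rw [ZMod.χ₄_nat_three_mod_four h]
    simp [h]

theorem sq_neg {p : ℕ} [Fact p.Prime] (hp : p ≠ 2) {n : ℤ} (hn : ¬ (p : ℤ) ∣ n) :
    sq p (-n) = xor (sq p n) (nm p) := by
  have h1 : ¬ (p : ℤ) ∣ (-1 : ℤ) := by
    have hpr : Prime (p : ℤ) := Nat.prime_iff_prime_int.mp Fact.out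
    rw [dvd_neg]
    exact fun h => hpr.not_isUnit (isUnit_of_dvd_one h)
  have e : -n = (-1) * n := by ring
  rw [e, sq_mul h1 hn, sq_neg_one hp]
  cases sq p n <;> cases nm p <;> rfl

/-! ### divisibility -/

theorem prime_int {p : ℕ} [Fact p.Prime] : Prime (p : ℤ) := Nat.prime_iff_prime_int.mp Fact.out

theorem nd_mul {p : ℕ} [Fact p.Prime] {m n : ℤ} (hm : ¬ (p : ℤ) ∣ m) (hn : ¬ (p : ℤ) ∣ n) :
    ¬ (p : ℤ) ∣ m * n := fun h => by
  rcases prime_int.dvd_or_dvd h with h | h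
  · exact hm h
  · exact hn h

theorem nd_pow {p : ℕ} [Fact p.Prime] {m : ℤ} (hm : ¬ (p : ℤ) ∣ m) (k : ℕ) :
    ¬ (p : ℤ) ∣ m ^ k := fun h => hm (prime_int.dvd_of_dvd_pow h)

theorem nd_two {p : ℕ} [Fact p.Prime] (hp : p ≠ 2) : ¬ (p : ℤ) ∣ 2 := by
  intro h
  have hpr : p.Prime := Fact.out
  have h1 : p ∣ 2 := by exact_mod_cast h
  exact hp ((Nat.prime_dvd_prime_iff_eq hpr Nat.prime_two).mp h1)

theorem nd_four {p : ℕ} [Fact p.Prime] (hp : p ≠ 2) : ¬ (p : ℤ) ∣ 4 := by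
  have := nd_pow (nd_two hp) 2
  norm_num at this
  exact this

theorem nd_sixteen {p : ℕ} [Fact p.Prime] (hp : p ≠ 2) : ¬ (p : ℤ) ∣ 16 := by
  have := nd_pow (nd_two hp) 4
  norm_num at this
  exact this

/-! ### valuations -/

theorem val_pow_mul {p : ℕ} [Fact p.Prime] (k : ℕ) {m : ℤ} (hm : ¬ (p : ℤ) ∣ m) :
    padicValInt p ((p : ℤ) ^ k * m) = k := by
  have hpr : p.Prime := Fact.out
  have hm0 : m ≠ 0 := fun h => hm (h ▸ dvd_zero _)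
  have hp0 : (p : ℤ) ≠ 0 := by exact_mod_cast hpr.ne_zero
  have h1 : padicValInt p m = 0 := padicValInt.eq_zero_of_not_dvd hm
  rw [padicValInt.mul (pow_ne_zero k hp0) hm0, h1, add_zero]
  unfold padicValInt
  rw [Int.natAbs_pow, Int.natAbs_natCast, padicValNat.prime_pow]

theorem up_pow_mul {p : ℕ} [Fact p.Prime] (k : ℕ) {m : ℤ} (hm : ¬ (p : ℤ) ∣ m) :
    up p ((p : ℤ) ^ k * m) = m := by
  have hpr : p.Prime := Fact.out
  have hp0 : (p : ℤ) ≠ 0 := by exact_mod_cast hpr.ne_zero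
  unfold up
  rw [val_pow_mul k hm]
  exact Int.mul_ediv_cancel_left m (pow_ne_zero k hp0)

theorem div_self_mul {p : ℕ} [Fact p.Prime] (m : ℤ) : (p : ℤ) * m / p = m := by
  have hpr : p.Prime := Fact.out
  have hp0 : (p : ℤ) ≠ 0 := by exact_mod_cast hpr.ne_zero
  exact Int.mul_ediv_cancel_left m hp0

/-- `p` exactly divides `F`: the quotient -/
theorem quot {p : ℕ} [Fact p.Prime] {F : ℤ} (h1 : (p : ℤ) ∣ F) (h2 : ¬ (p : ℤ) ^ 2 ∣ F) :
    F = p * (F / p) ∧ ¬ (p : ℤ) ∣ F / p := by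
  have e : F = p * (F / p) := (Int.mul_ediv_cancel' h1).symm
  refine ⟨e, fun h => h2 ?_⟩
  obtain ⟨c, hc⟩ := h
  rw [hc] at e
  exact ⟨c, by rw [e]; ring⟩

/-! ### polynomials -/

theorem f_prime {f : ℤ[X]} (hf : Irreducible f) : Prime f := hf.prime

theorem f_nd_one {f : ℤ[X]} (hf : Irreducible f) : ¬ f ∣ 1 :=
  fun h => hf.not_isUnit (isUnit_of_dvd_one h)

theorem f_nd_C {f : ℤ[X]} (hd : 0 < f.natDegree) {n : ℤ} (hn : n ≠ 0) : ¬ f ∣ C n := by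
  intro h
  have h1 := natDegree_le_of_dvd h (C_ne_zero.mpr hn)
  rw [natDegree_C] at h1
  omega

theorem f_nd_C_mul {f : ℤ[X]} (hf : Irreducible f) (hd : 0 < f.natDegree) {n : ℤ} (hn : n ≠ 0)
    {g : ℤ[X]} (hg : ¬ f ∣ g) : ¬ f ∣ C n * g := by
  intro h
  rcases (f_prime hf).dvd_or_dvd h with h | h
  · exact f_nd_C hd hn h
  · exact hg h

theorem f_nd_mul {f : ℤ[X]} (hf : Irreducible f) {g h : ℤ[X]} (hg : ¬ f ∣ g) (hh : ¬ f ∣ h) :
    ¬ f ∣ g * h := by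
  intro h1
  rcases (f_prime hf).dvd_or_dvd h1 with h1 | h1
  · exact hg h1
  · exact hh h1

/-- the exact power of `f` -/
theorem f_split {f b : ℤ[X]} (hf : Irreducible f) (hb : b ≠ 0) :
    ∃ (k : ℕ) (c : ℤ[X]), b = f ^ k * c ∧ ¬ f ∣ c ∧ ∀ i, f ^ i ∣ b → i ≤ k := by
  have hfin : FiniteMultiplicity f b := FiniteMultiplicity.of_not_isUnit hf.not_isUnit hb
  obtain ⟨c, hc, hnd⟩ := hfin.exists_eq_pow_mul_and_not_dvd
  exact ⟨multiplicity f b, c, hc, hnd, fun i hi => hfin.pow_dvd_iff_le_multiplicity.mp hi⟩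

theorem eval_modEq {K : ℤ[X]} {p : ℕ} {t t' : ℤ} (h : t ≡ t' [ZMOD p]) :
    K.eval t ≡ K.eval t' [ZMOD p] := by
  apply (Int.modEq_iff_dvd).mpr
  exact (Int.modEq_iff_dvd.mp h).trans (sub_dvd_eval_sub t' t K)

end Pool.Agent.L7h41.EA
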